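import Pool.Agent.Helper49.KR.St

set_option autoImplicit false

/-!
# Project KR (MP_c973ff_an), module EMB
-/

namespace Pool.Agent.Helper72.KR

open Finset
open Pool.Agent.Helper49.KX Pool.Agent.Helper49.KR

section

variable {X : Type} [TopologicalSpace X]

theorem emb_zero : (emb (0 : C(X, ℂ))) = 0 := rfl

theorem emb_add (f g : C(X, ℂ)) : emb (f + g) = emb f + emb g := rfl

theorem emb_mul (f g : C(X, ℂ)) : emb (f * g) = emb f * emb g := rfl

theorem embF_app (g : FS X) (n : ℤ) : embF g n = emb (g n) := rfl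

theorem embF_zero : (embF (0 : FS X)) = 0 := by
  apply Finsupp.ext
  intro n
  rfl

theorem embF_add (g g' : FS X) : embF (g + g') = embF g + embF g' := by
  apply Finsupp.ext
  intro n
  rfl

theorem embF_sub (g g' : FS X) : embF (g - g') = embF g - embF g' := by
  apply Finsupp.ext
  intro n
  rfl

theorem embF_single (n : ℤ) (f : C(X, ℂ)) :
    embF (Finsupp.single n f) = Finsupp.single n (emb f) := by
  unfold embF
  rw [Finsupp.mapRange_single]

theorem hD_pow (h : X ≃ₜ X) (n : ℤ) (x : X) : (hD h ^ n : Dx X ≃ₜ Dx X) x = (h ^ n : X ≃ₜ X) x := by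
  induction n generalizing x with
  | zero => rfl
  | succ n ih =>
    rw [zpow_add_one, zpow_add_one]
    exact ih (h x)
  | pred n ih =>
    rw [zpow_sub_one, zpow_sub_one]
    exact ih (h.symm x)

theorem emb_cmp (h : X ≃ₜ X) (n : ℤ) (f : C(X, ℂ)) : emb (cmp h n f) = cmp (hD h) n (emb f) := by
  apply ContinuousMap.ext
  intro x
  change f ((h ^ n : X ≃ₜ X) x) = f ((hD h ^ n : Dx X ≃ₜ Dx X) x)
  rw [hD_pow]

theorem emb_inj : Function.Injective (emb : C(X, ℂ) → C(Dx X, ℂ)) := by
  intro f g hfg
  apply ContinuousMap.ext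
  intro x
  exact DFunLike.congr_fun hfg (show Dx X from x)

/-- `embF` as an additive map -/
noncomputable def embA : FS X →+ FS (Dx X) where
  toFun := embF
  map_zero' := embF_zero
  map_add' := embF_add

theorem embF_tw (h : X ≃ₜ X) (g g' : FS X) : embF (tw h g g') = tw (hD h) (embF g) (embF g') := by
  have h1 : embF (tw h g g') = g.sum fun m f => g'.sum fun n f' =>
      Finsupp.single (m + n) (emb f * cmp (hD h) (-m) (emb f')) := by
    change embA (tw h g g') = _
    unfold tw
    rw [map_finsuppSum]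
    apply Finsupp.sum_congr
    intro m _
    rw [map_finsuppSum]
    apply Finsupp.sum_congr
    intro n _
    change embF _ = _
    rw [embF_single, emb_mul, emb_cmp]
  have z1 : ∀ (m n : ℤ) (b : C(Dx X, ℂ)),
      Finsupp.single (m + n) (b * cmp (hD h) (-m) (0 : C(Dx X, ℂ))) = 0 := by
    intro m n b
    have e : cmp (hD h) (-m) (0 : C(Dx X, ℂ)) = 0 := rfl
    rw [e, mul_zero, Finsupp.single_zero]
  rw [h1]
  unfold tw embF
  rw [Finsupp.sum_mapRange_index]
  · apply Finsupp.sum_congr
    intro m _
    rw [Finsupp.sum_mapRange_index]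
    intro n
    exact z1 m n _
  · intro m
    apply Finset.sum_eq_zero
    intro n _
    beta_reduce
    rw [zero_mul, Finsupp.single_zero]

end

/-- EMB -/
theorem hEMB : StEmb := by
  intro X _ h
  refine ⟨?_, embF_add, embF_sub, ?_, embF_tw h, hD_pow h, fun g n x => rfl⟩
  · exact Finsupp.mapRange_injective emb emb_zero emb_inj
  · unfold un
    rw [embF_single]
    rfl

end Pool.Agent.Helper72.KR
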